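import Pool.Agent.TH811.CC.Dat

set_option autoImplicit false
set_option linter.unusedVariables false
set_option linter.unusedSectionVars false

universe u

namespace Pool.Agent.TH317.CC.H811

open Finset Pool.Agent.TH317.CC Pool.Agent.TH317.CC.H938

variable {D V Λ R : Type*} [LinearOrder Λ] [CommRing R] [Inhabited D]

section passes

variable (G : Rib D V Λ) (u f v : List D)

theorem pass_wu (j : ℕ) (h1 : 1 ≤ j) (hj : j < u.length) :
    pass G.ipos G.pos (u ++ f ++ v) j = pass G.ipos G.pos u j := by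
  obtain ⟨j', rfl⟩ := Nat.exists_eq_succ_of_ne_zero (by omega : j ≠ 0)
  rw [pass_eq, pass_eq, Nat.succ_eq_add_one, prv_succ, prv_succ, getD_u u f v _ hj,
    getD_u u f v j' (by omega)]

theorem pass_wu' (j : ℕ) (h1 : 1 ≤ j) (hj : j < u.length) :
    pass G.ipos G.pos (u ++ v) j = pass G.ipos G.pos u j := by
  obtain ⟨j', rfl⟩ := Nat.exists_eq_succ_of_ne_zero (by omega : j ≠ 0)
  rw [pass_eq, pass_eq, Nat.succ_eq_add_one, prv_succ, prv_succ, getD_u' u v _ hj,
    getD_u' u v j' (by omega)]

theorem pass_wf (r : ℕ) (hr : r + 1 < f.length) :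
    pass G.ipos G.pos (u ++ f ++ v) (u.length + (r + 1)) = pass G.ipos G.pos f (r + 1) := by
  rw [pass_eq, pass_eq, prv_f u f v r (by omega), getD_f u f v (r + 1) hr, prv_succ]

theorem pass_wv (t : ℕ) :
    pass G.ipos G.pos (u ++ f ++ v) (u.length + f.length + (t + 1)) =
      pass G.ipos G.pos v (t + 1) := by
  rw [pass_eq, pass_eq, prv_v, getD_v, prv_succ]

theorem pass_wv' (t : ℕ) :
    pass G.ipos G.pos (u ++ v) (u.length + (t + 1)) = pass G.ipos G.pos v (t + 1) := by
  rw [pass_eq, pass_eq, prv_v', getD_v', prv_succ]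

theorem pass_three (hf : 0 < f.length) (hv : 0 < v.length) :
    ∃ x s s' y : Λ, pass G.ipos G.pos (u ++ f ++ v) u.length = (x, s) ∧
      pass G.ipos G.pos (u ++ f ++ v) (u.length + f.length) = (s', y) ∧
      pass G.ipos G.pos (u ++ v) u.length = (x, y) ∧ pass G.ipos G.pos f 0 = (s', s) := by
  have e1 : f.length = (f.length - 1) + 1 := by omega
  have a1 : prv (u ++ f ++ v) (u.length + f.length) = f.getD (f.length - 1) default := by
    have := prv_f u f v (f.length - 1) (by omega)
    rwa [← e1] at this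
  have a2 : (u ++ f ++ v).getD (u.length + f.length) default = v.getD 0 default := by
    have := getD_v u f v 0
    rwa [add_zero] at this
  have a3 : (u ++ f ++ v).getD u.length default = f.getD 0 default := by
    have := getD_f u f v 0 (by omega)
    rwa [add_zero] at this
  have a4 : (u ++ v).getD u.length default = v.getD 0 default := by
    have := getD_v' u v 0
    rwa [add_zero] at this
  have a5 : prv f 0 = f.getD (f.length - 1) default := by unfold prv; simp
  refine ⟨G.pos (G.inv (prv (u ++ v) u.length)), G.pos (f.getD 0 default),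
    G.pos (G.inv (f.getD (f.length - 1) default)), G.pos (v.getD 0 default), ?_, ?_, ?_, ?_⟩
  · rw [pass_eq, a3, prv_u u f v hv u.length le_rfl]
  · rw [pass_eq, a1, a2]
  · rw [pass_eq, a4]
  · rw [pass_eq, a5]

theorem cf_pos (w : List D) (j k : ℕ) (hj : j ≠ 0) :
    cf G.ipos G.pos w j k = lk (pass G.ipos G.pos w j) (pass G.ipos G.pos w k) := by
  unfold cf
  rw [if_neg hj]

end passes

theorem seg_getD (l : List D) (j0 j1 k : ℕ) (hk : j0 + k < j1) (hj1 : j1 ≤ l.length) :
    ((l.take j1).drop j0).getD k default = l.getD (j0 + k) default := by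
  have h1 : k < ((l.take j1).drop j0).length := by
    simp only [List.length_drop, List.length_take]; omega
  rw [List.getD_eq_getElem _ _ h1, List.getD_eq_getElem _ _ (by omega)]
  simp

theorem seg_length (l : List D) (j0 j1 : ℕ) (hj1 : j1 ≤ l.length) :
    ((l.take j1).drop j0).length = j1 - j0 := by
  simp only [List.length_drop, List.length_take]; omega

theorem pass_seg (G : Rib D V Λ) (l : List D) (j0 j1 k : ℕ) (h1 : 1 ≤ k) (hk : j0 + k < j1)
    (hj1 : j1 ≤ l.length) :
    pass G.ipos G.pos ((l.take j1).drop j0) k = pass G.ipos G.pos l (j0 + k) := by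
  obtain ⟨k', rfl⟩ := Nat.exists_eq_succ_of_ne_zero (by omega : k ≠ 0)
  rw [pass_eq, pass_eq, Nat.succ_eq_add_one, prv_succ, ← add_assoc, prv_succ,
    seg_getD l j0 j1 (k' + 1) (by omega) hj1, seg_getD l j0 j1 k' (by omega) hj1]
  rfl

/-- vanishing of the crossings with a run -/
theorem cross_seg (G : Rib D V Λ) (S : Set V) (hS : IntZero G S) (f : List D) (y : V)
    (wf : Walk G y y f) (hfS : ∀ e ∈ f, G.tl e ∈ S) (l : List D) (x x' : V)
    (hl : Walk G x x' l) (j0 j1 : ℕ) (h01 : j0 < j1) (hj1 : j1 ≤ l.length)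
    (n0 : vx G l x' j0 ∉ S) (n1 : vx G l x' j1 ∉ S)
    (hrun : ∀ j, j0 < j → j < j1 → vx G l x' j ∈ S) :
    ∑ j ∈ Ico (j0 + 1) j1, ∑ r ∈ range f.length,
      lk (pass G.ipos G.pos f r) (pass G.ipos G.pos l j) = 0 := by
  have hw := (walk_seg G l x x' hl j0 j1 h01.le hj1).2.1
  have h0 := hS f y wf hfS _ _ _ hw n0 n1 (by
    intro k hk1 hk2
    rw [seg_length l j0 j1 hj1] at hk2
    rw [seg_getD l j0 j1 k (by omega) hj1]
    have := hrun (j0 + k) (by omega) (by omega)
    rwa [vx_lt _ _ _ _ (by omega)] at this)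
  unfold crossSum at h0
  rw [seg_length l j0 j1 hj1] at h0
  rw [← h0]
  have e1 : Ico (j0 + 1) j1 = Ico (1 + j0) (j1 - j0 + j0) := by
    congr 1 <;> omega
  rw [e1, ← Finset.sum_Ico_add]
  refine Finset.sum_congr rfl fun k hk => Finset.sum_congr rfl fun r hr => ?_
  obtain ⟨hk1, hk2⟩ := Finset.mem_Ico.mp hk
  rw [pass_seg G l j0 j1 k hk1 (by omega) hj1]

theorem const_sum2 (s t : Finset ℕ) (c : ℕ → ℕ → ℤ) (P : ℕ → ℕ → R)
    (h : ∀ j ∈ s, ∀ r ∈ t, ∀ j' ∈ s, ∀ r' ∈ t, c j r ≠ 0 → c j' r' ≠ 0 → P j r = P j' r')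
    (h0 : ∑ j ∈ s, ∑ r ∈ t, c j r = 0) :
    ∑ j ∈ s, ∑ r ∈ t, (c j r : R) * P j r = 0 := by
  have e0 : ∑ x ∈ s ×ˢ t, c x.1 x.2 = 0 := by
    rw [Finset.sum_product]; exact h0
  have e1 := const_sum (s ×ˢ t) (fun x => c x.1 x.2) (fun x => P x.1 x.2) (by
    intro x hx x' hx' hc hc'
    rw [Finset.mem_product] at hx hx'
    exact h x.1 hx.1 x.2 hx.2 x'.1 hx'.1 x'.2 hx'.2 hc hc') e0
  rw [Finset.sum_product] at e1
  exact e1

namespace DS

variable {G : Rib D V Λ} {Fc : Set (List D)} {Rl : ℕ → List D → Prop} {X g : List D → R}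
    {S : Set V} {n : ℕ} {a : D} {f u v : List D} {y : V} {m : ℕ}

theorem adj_u (h : DS G Fc Rl X g S n a f u v y m) (j : ℕ) (h1 : 1 ≤ j) (hj : j < u.length) :
    G.tl (G.inv (prv u j)) = vx G u y j := by
  obtain ⟨j', rfl⟩ := Nat.exists_eq_succ_of_ne_zero (by omega : j ≠ 0)
  rw [vx_lt _ _ _ _ hj, Nat.succ_eq_add_one, prv_succ]
  exact walk_adj G u _ _ h.wu j' hj

theorem adj_v (h : DS G Fc Rl X g S n a f u v y m) (j : ℕ) (h1 : 1 ≤ j) (hj : j < v.length) :
    G.tl (G.inv (prv v j)) = vx G v (G.tl a) j := by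
  obtain ⟨j', rfl⟩ := Nat.exists_eq_succ_of_ne_zero (by omega : j ≠ 0)
  rw [vx_lt _ _ _ _ hj, Nat.succ_eq_add_one, prv_succ]
  exact walk_adj G v _ _ h.wv j' hj

theorem adj_f (h : DS G Fc Rl X g S n a f u v y m) (r : ℕ) (hr : r < f.length) :
    G.tl (G.inv (prv f r)) = vx G f y r := by
  rw [vx_lt _ _ _ _ hr]
  exact cw_hd G f h.cwf r hr

theorem cB_zero (h : DS G Fc Rl X g S n a f u v y m) (j r : ℕ) (h1 : 1 ≤ j)
    (hj : j < u.length) (hr : r < f.length) (hne : vx G u y j ≠ vx G f y r) :
    lk (pass G.ipos G.pos u j) (pass G.ipos G.pos f r) = 0 := by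
  rw [pass_eq, pass_eq]
  have e1 := h.adj_u j h1 hj
  have e2 := h.adj_f r hr
  apply lk_zero
  · rw [e1, vx_lt _ _ _ _ hj]
  · rw [e2, vx_lt _ _ _ _ hr]
  · rw [e1, e2]; exact hne

theorem cD_zero (h : DS G Fc Rl X g S n a f u v y m) (t r : ℕ) (h1 : 1 ≤ t)
    (ht : t < v.length) (hr : r < f.length) (hne : vx G v (G.tl a) t ≠ vx G f y r) :
    lk (pass G.ipos G.pos f r) (pass G.ipos G.pos v t) = 0 := by
  rw [pass_eq, pass_eq]
  have e1 := h.adj_v t h1 ht
  have e2 := h.adj_f r hr
  apply lk_zero
  · rw [e2, vx_lt _ _ _ _ hr]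
  · rw [e1, vx_lt _ _ _ _ ht]
  · rw [e1, e2]; exact fun e => hne e.symm

/-! ### earlier passes -/

theorem PP_V0 (h : DS G Fc Rl X g S n a f u v y m) (j : ℕ) (h1 : 1 ≤ j) (hj : j < u.length)
    (ht : vx G u y j = y) :
    PP X g u f v 0 j = X (u.drop j) * g (u.take j ++ v) ∧
      PP X g u f v f.length j = X (u.drop j) * g (u.take j ++ v) := by
  unfold PP
  constructor
  · have hl := h.lrest j (u.length + 0) (by omega) (by omega)
      (by rw [h.tl_u j hj.le, h.tl_f 0 (by omega), ht]; exact walk_start G _ _ _ h.wf)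
    rw [rest_uf u f v j 0 hj.le (by omega), List.drop_zero] at hl
    rw [List.take_zero, List.append_nil, List.drop_zero,
      h.hg _ f v y (by simpa using h.take_ok j h1 []) h.wf h.hfS (lev_mono h.hL _ _ (by omega) _ hl)]
  · have hl := h.lleaf j (u.length + f.length) (by omega) (by omega)
      (by rw [h.tl_u j hj.le, h.tl_f f.length le_rfl, vx_end, ht])
    rw [leaf_uf u f v j f.length hj.le le_rfl, List.take_length] at hl
    rw [List.take_length, List.drop_length, List.append_nil]
    have := h.Xinv (u.drop j) f [] y h.wf h.hfS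
      (by rw [List.append_nil]; exact lev_mono h.hL _ _ (by omega) _ hl)
    rw [List.append_nil, List.append_nil] at this
    rw [this]

theorem HB1 (h : DS G Fc Rl X g S n a f u v y m) (j : ℕ) (h1 : 1 ≤ j) (hj : j < u.length) :
    (∑ r ∈ range (f.length + 1), T G X g (u ++ f ++ v) j (u.length + r))
      - T G X g (u ++ v) j u.length =
    ∑ r ∈ range f.length,
      (lk (pass G.ipos G.pos u j) (pass G.ipos G.pos f r) : R) * PP X g u f v r j := by
  have hq := h.hq
  obtain ⟨q, hqe⟩ : ∃ q, f.length = q + 1 := ⟨f.length - 1, by omega⟩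
  have hT : ∀ r ≤ f.length, T G X g (u ++ f ++ v) j (u.length + r) =
      (lk (pass G.ipos G.pos u j) (pass G.ipos G.pos (u ++ f ++ v) (u.length + r)) : R)
        * PP X g u f v r j := by
    intro r hr
    unfold T PP
    rw [leaf_uf u f v j r hj.le hr, rest_uf u f v j r hj.le hr, mul_assoc,
      cf_pos G _ _ _ (by omega), pass_wu G u f v j h1 hj]
  have e1 : ∑ r ∈ range (f.length + 1), T G X g (u ++ f ++ v) j (u.length + r) =
      (∑ r ∈ range q, (lk (pass G.ipos G.pos u j) (pass G.ipos G.pos f (r + 1)) : R)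
        * PP X g u f v (r + 1) j)
      + T G X g (u ++ f ++ v) j (u.length + 0) + T G X g (u ++ f ++ v) j (u.length + f.length) := by
    rw [sum_range_succ]
    congr 1
    have : range f.length = range (q + 1) := by rw [hqe]
    rw [this, sum_range_succ']
    congr 1
    apply sum_congr rfl
    intro r hr
    have hr' := mem_range.mp hr
    rw [hT (r + 1) (by omega), pass_wf G u f v r (by omega)]
  have e2 : ∑ r ∈ range f.length,
      (lk (pass G.ipos G.pos u j) (pass G.ipos G.pos f r) : R) * PP X g u f v r j =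
      (∑ r ∈ range q, (lk (pass G.ipos G.pos u j) (pass G.ipos G.pos f (r + 1)) : R)
        * PP X g u f v (r + 1) j)
      + (lk (pass G.ipos G.pos u j) (pass G.ipos G.pos f 0) : R) * PP X g u f v 0 j := by
    have : range f.length = range (q + 1) := by rw [hqe]
    rw [this, sum_range_succ']
  rw [e1, e2, hT 0 (by omega), hT f.length le_rfl, add_zero]
  have e3 : T G X g (u ++ v) j u.length =
      (lk (pass G.ipos G.pos u j) (pass G.ipos G.pos (u ++ v) u.length) : R)
        * (X (u.drop j) * g (u.take j ++ v)) := by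
    unfold T
    have a1 := leaf_uv' u v j 0 hj.le
    have b1 := rest_uv' u v j 0 hj.le
    simp only [add_zero, List.take_zero, List.append_nil, List.drop_zero] at a1 b1
    rw [a1, b1, mul_assoc, cf_pos G _ _ _ (by omega), pass_wu' G u v j h1 hj]
  rw [e3]
  obtain ⟨x, s, s', z, p1, p2, p3, p4⟩ := pass_three G u f v h.hq h.hvl
  by_cases ht : vx G u y j = y
  · obtain ⟨q1, q2⟩ := h.PP_V0 j h1 hj ht
    rw [p1, p2, p3, p4, q1, q2]
    have := lk_add_right (pass G.ipos G.pos u j) x z s s'
    rw [← this]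
    push_cast
    ring
  · have y0 : vx G f y 0 = y := (walk_start G _ _ _ h.wf).symm
    have z1 : lk (pass G.ipos G.pos u j) (pass G.ipos G.pos (u ++ f ++ v) u.length) = 0 := by
      have := h.T_zero j (u.length + 0) (by omega) (by omega) (by
        rw [h.tl_u j hj.le, h.tl_f 0 (by omega), y0]; exact ht)
      rwa [cf_pos G _ _ _ (by omega), pass_wu G u f v j h1 hj, add_zero] at this
    have z2 : lk (pass G.ipos G.pos u j)
        (pass G.ipos G.pos (u ++ f ++ v) (u.length + f.length)) = 0 := by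
      have := h.T_zero j (u.length + f.length) (by omega) (by omega) (by
        rw [h.tl_u j hj.le, h.tl_f f.length le_rfl, vx_end]; exact ht)
      rwa [cf_pos G _ _ _ (by omega), pass_wu G u f v j h1 hj] at this
    have z3 : lk (pass G.ipos G.pos u j) (pass G.ipos G.pos f 0) = 0 :=
      h.cB_zero j 0 h1 hj h.hq (by rw [y0]; exact ht)
    have z4 : lk (pass G.ipos G.pos u j) (pass G.ipos G.pos (u ++ v) u.length) = 0 := by
      rw [p1] at z1; rw [p2] at z2; rw [p4] at z3; rw [p3]
      have := lk_add_right (pass G.ipos G.pos u j) x z s s'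
      rw [z1, z2, z3] at this
      linarith
    rw [z1, z2, z3, z4]
    simp

theorem HB0 (h : DS G Fc Rl X g S n a f u v y m) :
    (∑ r ∈ range (f.length + 1), T G X g (u ++ f ++ v) 0 (u.length + r))
      - T G X g (u ++ v) 0 u.length = 0 := by
  have hul := h.hul
  have e1 : ∑ r ∈ range (f.length + 1), T G X g (u ++ f ++ v) 0 (u.length + r) = 0 := by
    refine sum_eq_zero fun r hr => ?_
    have hr' := mem_range.mp hr
    unfold T
    rw [h.T_zero 0 (u.length + r) (by omega) (by omega) (by
      rw [h.tl_u 0 (by omega), h.tl_f r (by omega), h.vu0]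
      intro e
      exact h.haS (by rw [e]; exact h.vf_mem r))]
    simp
  have e2 : T G X g (u ++ v) 0 u.length = 0 := by
    unfold T
    rw [cf_zero G _ h.cw' 0 u.length (by rw [List.length_append]; omega)
      (by rw [List.length_append, h.hm]; omega) (by
        have a4 := getD_v' u v 0
        rw [add_zero] at a4
        have a5 := walk_start G _ _ _ h.wu
        rw [vx_lt _ _ _ _ hul] at a5
        rw [a4, getD_u' u v 0 hul, h.v0, ← a5]
        intro e
        exact h.haS (by rw [e]; exact h.yS))]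
    simp
  rw [e1, e2, sub_zero]

theorem crossB (h : DS G Fc Rl X g S n a f u v y m) (j0 j1 : ℕ) (h01 : j0 < j1)
    (hj1 : j1 < u.length) (n0 : vx G u y j0 ∉ S) (n1 : vx G u y j1 ∉ S)
    (hrun : ∀ j, j0 < j → j < j1 → vx G u y j ∈ S) :
    ∑ j ∈ Ico (j0 + 1) j1, ∑ r ∈ range f.length,
      lk (pass G.ipos G.pos u j) (pass G.ipos G.pos f r) = 0 := by
  classical
  have h0 := cross_seg G S h.hS f y h.wf h.hfS u _ _ h.wu j0 j1 h01 hj1.le n0 n1 hrun
  set M : ℕ → ℤ := fun j => ∑ r ∈ range f.length,
    if u.getD j default = f.getD r default then 1 else 0 with hM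
  have hshift : ∀ x : D, ∑ r ∈ range f.length, (if x = prv f r then (1:ℤ) else 0) =
      ∑ r ∈ range f.length, if x = f.getD r default then 1 else 0 := by
    intro x
    have hq := h.hq
    obtain ⟨q, hqe⟩ : ∃ q, f.length = q + 1 := ⟨f.length - 1, by omega⟩
    have : range f.length = range (q + 1) := by rw [hqe]
    rw [this, sum_range_succ', sum_range_succ]
    congr 1
    · unfold prv
      rw [if_pos rfl, hqe]
      rfl
  have e1 : ∀ j ∈ Ico (j0 + 1) j1, ∑ r ∈ range f.length,
      lk (pass G.ipos G.pos u j) (pass G.ipos G.pos f r) =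
      (M j - M (j - 1)) - ∑ r ∈ range f.length,
        lk (pass G.ipos G.pos f r) (pass G.ipos G.pos u j) := by
    intro j hj
    obtain ⟨hj1', hj2⟩ := Finset.mem_Ico.mp hj
    have ejj : prv u j = u.getD (j - 1) default := by
      obtain ⟨j', rfl⟩ := Nat.exists_eq_succ_of_ne_zero (by omega : j ≠ 0)
      rw [Nat.succ_eq_add_one, prv_succ]; rfl
    have a1 : M (j - 1) = ∑ r ∈ range f.length, (if prv u j = prv f r then (1:ℤ) else 0) := by
      rw [hshift, ejj]
    rw [a1, hM]
    simp only
    rw [← sum_sub_distrib, ← sum_sub_distrib]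
    refine sum_congr rfl fun r hr => ?_
    have b := lk_symm (pass G.ipos G.pos u j) (pass G.ipos G.pos f r)
    have c1 : (pass G.ipos G.pos u j).2 = (pass G.ipos G.pos f r).2 ↔
        u.getD j default = f.getD r default :=
      ⟨fun e => G.pos_inj e, fun e => by rw [pass_eq, pass_eq, e]⟩
    have c2 : (pass G.ipos G.pos u j).1 = (pass G.ipos G.pos f r).1 ↔ prv u j = prv f r := by
      rw [pass_eq, pass_eq]
      constructor
      · intro e
        have e' : G.inv (prv u j) = G.inv (prv f r) := G.pos_inj e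
        rw [← G.inv_inv (prv u j), e', G.inv_inv]
      · intro e; simp only [e]
    simp only [c1, c2] at b
    linear_combination b
  rw [sum_congr rfl e1, sum_sub_distrib, h0, sub_zero, tele M j0 j1 h01]
  have m0 : M j0 = 0 := by
    rw [hM]
    refine sum_eq_zero fun r hr => if_neg ?_
    have hr' := mem_range.mp hr
    intro e
    apply n0
    rw [vx_lt _ _ _ _ (by omega), e, List.getD_eq_getElem _ _ hr']
    exact h.hfS _ (List.getElem_mem hr')
  have m1 : M (j1 - 1) = 0 := by
    rw [hM]
    refine sum_eq_zero fun r hr => if_neg ?_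
    have hr' := mem_range.mp hr
    intro e
    apply n1
    have a1 := walk_adj G u _ _ h.wu (j1 - 1) (by omega)
    have e2 : j1 - 1 + 1 = j1 := by omega
    rw [e2] at a1
    rw [vx_lt _ _ _ _ hj1, ← a1, e, List.getD_eq_getElem _ _ hr']
    exact walk_hd_mem G S f _ _ h.wf h.hfS h.yS _ (List.getElem_mem hr')
  rw [m0, m1, sub_zero]

theorem PP_const' (h : DS G Fc Rl X g S n a f u v y m) (j0 j1 j j' r r' : ℕ)
    (hj1 : j1 ≤ u.length) (hj : j0 < j) (hj2 : j < j1) (hj' : j0 < j') (hj2' : j' < j1)
    (hr : r < f.length) (hr' : r' < f.length)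
    (e : vx G u y j = vx G f y r) (e' : vx G u y j' = vx G f y r')
    (hrun : ∀ j, j0 < j → j < j1 → vx G u y j ∈ S) :
    PP X g u f v r j = PP X g u f v r' j' := by
  rcases le_total j j' with h1 | h1
  · exact h.PP_const j j' r r' (by omega) h1 (by omega) hr.le hr'.le e e'
      (fun i hi1 hi2 => hrun i (by omega) (by omega))
  · exact (h.PP_const j' j r' r (by omega) h1 (by omega) hr'.le hr.le e' e
      (fun i hi1 hi2 => hrun i (by omega) (by omega))).symm

theorem HB (h : DS G Fc Rl X g S n a f u v y m) :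
    ∑ j ∈ range u.length, ∑ r ∈ range (f.length + 1),
        T G X g (u ++ f ++ v) j (u.length + r) =
      ∑ j ∈ range u.length, T G X g (u ++ v) j (u.length) := by
  rw [← sub_eq_zero, ← sum_sub_distrib]
  refine runs (fun j => vx G u y j ∈ S) _ u.length ?_ ?_ ?_
  · intro j hj hA
    rcases Nat.eq_zero_or_pos j with h0 | h0
    · subst h0; exact h.HB0
    · rw [h.HB1 j h0 hj]
      refine sum_eq_zero fun r hr => ?_
      have hr' := mem_range.mp hr
      rw [h.cB_zero j r h0 hj hr' (fun e => hA (by rw [e]; exact h.vf_mem r))]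
      simp
  · intro j1 hj1 hA
    rcases Nat.eq_zero_or_pos j1 with h0 | h0
    · subst h0; simp
    · exact absurd (hA 0 h0) (by rw [h.vu0]; exact h.haS)
  · intro j0 j1 h01 hj1 n0 n1 hrun
    have e1 : ∀ j ∈ Ico (j0 + 1) j1, (∑ r ∈ range (f.length + 1),
        T G X g (u ++ f ++ v) j (u.length + r)) - T G X g (u ++ v) j u.length =
        ∑ r ∈ range f.length,
          (lk (pass G.ipos G.pos u j) (pass G.ipos G.pos f r) : R) * PP X g u f v r j := by
      intro j hj
      obtain ⟨hj1', hj2⟩ := Finset.mem_Ico.mp hj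
      exact h.HB1 j (by omega) (by omega)
    rw [sum_congr rfl e1]
    rcases hj1.lt_or_eq with hlt | heq
    · have hc := h.crossB j0 j1 h01 hlt n0 (n1 hlt) hrun
      refine const_sum2 _ _ (fun j r => lk (pass G.ipos G.pos u j) (pass G.ipos G.pos f r))
        (fun j r => PP X g u f v r j) ?_ hc
      intro j hj r hr j' hj' r' hr' hne hne'
      rw [Finset.mem_Ico] at hj hj'
      rw [Finset.mem_range] at hr hr'
      refine h.PP_const' j0 j1 j j' r r' hj1 (by omega) (by omega) (by omega) (by omega)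
        hr hr' ?_ ?_ hrun
      · by_contra hc'
        exact hne (h.cB_zero j r (by omega) (by omega) hr hc')
      · by_contra hc'
        exact hne' (h.cB_zero j' r' (by omega) (by omega) hr' hc')
    · refine sum_eq_zero fun j hj => sum_eq_zero fun r hr => ?_
      obtain ⟨hj1', hj2⟩ := Finset.mem_Ico.mp hj
      have hr' := mem_range.mp hr
      by_cases ht : vx G u y j = vx G f y r
      · rw [h.PP_last j r (by omega) hr'.le ht (fun i hi1 hi2 => hrun i (by omega) (by omega)),
          mul_zero]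
      · rw [h.cB_zero j r (by omega) (by omega) hr' ht]; simp

/-! ### later passes -/

theorem QQ_V0 (h : DS G Fc Rl X g S n a f u v y m) (t : ℕ) (h1 : 1 ≤ t) (htm : t ≤ m)
    (ht : vx G v (G.tl a) t = y) :
    QQ X g u f v 0 t = X (v.take t) * g (u ++ v.drop t) ∧
      QQ X g u f v f.length t = X (v.take t) * g (u ++ v.drop t) := by
  have y0 : vx G f y 0 = y := (walk_start G _ _ _ h.wf).symm
  unfold QQ
  constructor
  · have hl := h.lleaf (u.length + 0) (u.length + f.length + t) (by omega) (by omega)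
      (by rw [h.tl_f 0 (by omega), h.tl_v t htm, ht, y0])
    rw [leaf_fv u f v 0 t (by omega), List.drop_zero] at hl
    rw [List.take_zero, List.append_nil, List.drop_zero]
    have := h.Xinv [] f (v.take t) y h.wf h.hfS (by simpa using lev_mono h.hL 1 _ (by omega) _ hl)
    simp only [List.nil_append] at this
    rw [this]
  · have hl := h.lrest (u.length + f.length) (u.length + f.length + t) (by omega) (by omega)
      (by rw [h.tl_f f.length le_rfl, h.tl_v t htm, vx_end, ht])
    rw [rest_fv u f v f.length t le_rfl, List.take_length] at hl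
    rw [List.take_length, List.drop_length, List.nil_append,
      h.hg u f (v.drop t) y (by simpa using h.u_ok []) h.wf h.hfS
        (lev_mono h.hL _ _ (by omega) _ hl)]

theorem HD1 (h : DS G Fc Rl X g S n a f u v y m) (t : ℕ) (htm : t < m) :
    (∑ r ∈ range (f.length + 1),
      T G X g (u ++ f ++ v) (u.length + r) (u.length + f.length + (t + 1)))
      - T G X g (u ++ v) u.length (u.length + (t + 1)) =
    ∑ r ∈ range f.length,
      (lk (pass G.ipos G.pos f r) (pass G.ipos G.pos v (t + 1)) : R)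
        * QQ X g u f v r (t + 1) := by
  have hq := h.hq
  have hul := h.hul
  have hvm := h.hm
  obtain ⟨q, hqe⟩ : ∃ q, f.length = q + 1 := ⟨f.length - 1, by omega⟩
  have hT : ∀ r ≤ f.length,
      T G X g (u ++ f ++ v) (u.length + r) (u.length + f.length + (t + 1)) =
      (lk (pass G.ipos G.pos (u ++ f ++ v) (u.length + r)) (pass G.ipos G.pos v (t + 1)) : R)
        * QQ X g u f v r (t + 1) := by
    intro r hr
    unfold T QQ
    rw [leaf_fv u f v r (t + 1) hr, rest_fv u f v r (t + 1) hr, mul_assoc,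
      cf_pos G _ _ _ (by omega), pass_wv]
  have e1 : ∑ r ∈ range (f.length + 1),
      T G X g (u ++ f ++ v) (u.length + r) (u.length + f.length + (t + 1)) =
      (∑ r ∈ range q, (lk (pass G.ipos G.pos f (r + 1)) (pass G.ipos G.pos v (t + 1)) : R)
        * QQ X g u f v (r + 1) (t + 1))
      + T G X g (u ++ f ++ v) (u.length + 0) (u.length + f.length + (t + 1))
      + T G X g (u ++ f ++ v) (u.length + f.length) (u.length + f.length + (t + 1)) := by
    rw [sum_range_succ]
    congr 1
    have : range f.length = range (q + 1) := by rw [hqe]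
    rw [this, sum_range_succ']
    congr 1
    apply sum_congr rfl
    intro r hr
    have hr' := mem_range.mp hr
    rw [hT (r + 1) (by omega), pass_wf G u f v r (by omega)]
  have e2 : ∑ r ∈ range f.length,
      (lk (pass G.ipos G.pos f r) (pass G.ipos G.pos v (t + 1)) : R) * QQ X g u f v r (t + 1) =
      (∑ r ∈ range q, (lk (pass G.ipos G.pos f (r + 1)) (pass G.ipos G.pos v (t + 1)) : R)
        * QQ X g u f v (r + 1) (t + 1))
      + (lk (pass G.ipos G.pos f 0) (pass G.ipos G.pos v (t + 1)) : R)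
        * QQ X g u f v 0 (t + 1) := by
    have : range f.length = range (q + 1) := by rw [hqe]
    rw [this, sum_range_succ']
  rw [e1, e2, hT 0 (by omega), hT f.length le_rfl, add_zero]
  have e3 : T G X g (u ++ v) u.length (u.length + (t + 1)) =
      (lk (pass G.ipos G.pos (u ++ v) u.length) (pass G.ipos G.pos v (t + 1)) : R)
        * (X (v.take (t + 1)) * g (u ++ v.drop (t + 1))) := by
    unfold T
    have a1 := leaf_uv' u v u.length (t + 1) le_rfl
    have b1 := rest_uv' u v u.length (t + 1) le_rfl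
    rw [List.drop_length, List.nil_append] at a1
    rw [List.take_length] at b1
    rw [a1, b1, mul_assoc, cf_pos G _ _ _ (by omega), pass_wv']
  rw [e3]
  obtain ⟨x, s, s', z, p1, p2, p3, p4⟩ := pass_three G u f v h.hq h.hvl
  by_cases ht : vx G v (G.tl a) (t + 1) = y
  · obtain ⟨q1, q2⟩ := h.QQ_V0 (t + 1) (by omega) (by omega) ht
    rw [p1, p2, p3, p4, q1, q2]
    have := lk_add_left (pass G.ipos G.pos v (t + 1)) x z s s'
    rw [← this]
    push_cast
    ring
  · have y0 : vx G f y 0 = y := (walk_start G _ _ _ h.wf).symm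
    have z1 : lk (pass G.ipos G.pos (u ++ f ++ v) u.length) (pass G.ipos G.pos v (t + 1)) = 0 := by
      have := h.T_zero (u.length + 0) (u.length + f.length + (t + 1)) (by omega) (by omega) (by
        rw [h.tl_f 0 (by omega), h.tl_v (t + 1) (by omega), y0]; exact fun e => ht e.symm)
      rwa [cf_pos G _ _ _ (by omega), pass_wv, add_zero] at this
    have z2 : lk (pass G.ipos G.pos (u ++ f ++ v) (u.length + f.length))
        (pass G.ipos G.pos v (t + 1)) = 0 := by
      have := h.T_zero (u.length + f.length) (u.length + f.length + (t + 1)) (by omega) (by omega)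
        (by rw [h.tl_f f.length le_rfl, h.tl_v (t + 1) (by omega), vx_end]
            exact fun e => ht e.symm)
      rwa [cf_pos G _ _ _ (by omega), pass_wv] at this
    have z3 : lk (pass G.ipos G.pos f 0) (pass G.ipos G.pos v (t + 1)) = 0 :=
      h.cD_zero (t + 1) 0 (by omega) (by omega) h.hq (by rw [y0]; exact ht)
    have z4 : lk (pass G.ipos G.pos (u ++ v) u.length) (pass G.ipos G.pos v (t + 1)) = 0 := by
      rw [p1] at z1; rw [p2] at z2; rw [p4] at z3; rw [p3]
      have := lk_add_left (pass G.ipos G.pos v (t + 1)) x z s s'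
      rw [z1, z2, z3] at this
      linarith
    rw [z1, z2, z3, z4]
    simp

theorem QQ_const' (h : DS G Fc Rl X g S n a f u v y m) (j0 j1 j j' r r' : ℕ)
    (hj1 : j1 ≤ m + 1) (hj : j0 < j) (hj2 : j < j1) (hj' : j0 < j') (hj2' : j' < j1)
    (hr : r < f.length) (hr' : r' < f.length)
    (e : vx G v (G.tl a) j = vx G f y r) (e' : vx G v (G.tl a) j' = vx G f y r')
    (hrun : ∀ j, j0 < j → j < j1 → vx G v (G.tl a) j ∈ S) :
    QQ X g u f v r j = QQ X g u f v r' j' := by
  rcases le_total j j' with h1 | h1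
  · exact h.QQ_const j j' r r' (by omega) h1 (by omega) hr.le hr'.le e e'
      (fun i hi1 hi2 => hrun i (by omega) (by omega))
  · exact (h.QQ_const j' j r' r (by omega) h1 (by omega) hr'.le hr.le e' e
      (fun i hi1 hi2 => hrun i (by omega) (by omega))).symm

theorem HD (h : DS G Fc Rl X g S n a f u v y m) :
    ∑ t ∈ range m, ∑ r ∈ range (f.length + 1),
        T G X g (u ++ f ++ v) (u.length + r) (u.length + f.length + (t + 1)) =
      ∑ t ∈ range m, T G X g (u ++ v) (u.length) (u.length + (t + 1)) := by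
  have hvm := h.hm
  rw [← sub_eq_zero, ← sum_sub_distrib]
  set F : ℕ → R := fun k => if k = 0 then 0 else ∑ r ∈ range f.length,
      (lk (pass G.ipos G.pos f r) (pass G.ipos G.pos v k) : R) * QQ X g u f v r k with hF
  have e0 : ∑ t ∈ range m, ((∑ r ∈ range (f.length + 1),
      T G X g (u ++ f ++ v) (u.length + r) (u.length + f.length + (t + 1)))
      - T G X g (u ++ v) u.length (u.length + (t + 1))) = ∑ k ∈ range (m + 1), F k := by
    rw [sum_range_succ']
    have : F 0 = 0 := by rw [hF]; simp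
    rw [this, add_zero]
    refine sum_congr rfl fun t ht => ?_
    rw [h.HD1 t (mem_range.mp ht), hF]
    simp
  rw [e0]
  refine runs (fun j => vx G v (G.tl a) j ∈ S) F (m + 1) ?_ ?_ ?_
  · intro j hj hA
    rw [hF]
    simp only
    split_ifs with h0
    · rfl
    · refine sum_eq_zero fun r hr => ?_
      have hr' := mem_range.mp hr
      rw [h.cD_zero j r (by omega) (by omega) hr' (fun e => hA (by rw [e]; exact h.vf_mem r))]
      simp
  · intro j1 hj1 hA
    refine sum_eq_zero fun j hj => ?_
    have hj' := mem_range.mp hj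
    rw [hF]
    simp only
    split_ifs with h0
    · rfl
    · refine sum_eq_zero fun r hr => ?_
      have hr' := mem_range.mp hr
      by_cases ht : vx G v (G.tl a) j = vx G f y r
      · rw [h.QQ_first j r (by omega) (by omega) hr'.le ht (fun i hi => hA i (by omega)), mul_zero]
      · rw [h.cD_zero j r (by omega) (by omega) hr' ht]; simp
  · intro j0 j1 h01 hj1 n0 n1 hrun
    have n1' : vx G v (G.tl a) j1 ∉ S := by
      rcases hj1.lt_or_eq with hlt | heq
      · exact n1 hlt
      · rw [heq, ← hvm, vx_end]; exact h.haS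
    have e1 : ∀ j ∈ Ico (j0 + 1) j1, F j =
        ∑ r ∈ range f.length,
          (lk (pass G.ipos G.pos f r) (pass G.ipos G.pos v j) : R) * QQ X g u f v r j := by
      intro j hj
      obtain ⟨hj1', hj2⟩ := Finset.mem_Ico.mp hj
      rw [hF]
      simp only
      rw [if_neg (by omega)]
    rw [sum_congr rfl e1]
    have hc := cross_seg G S h.hS f y h.wf h.hfS v _ _ h.wv j0 j1 h01 (by omega) n0 n1' hrun
    refine const_sum2 _ _ (fun j r => lk (pass G.ipos G.pos f r) (pass G.ipos G.pos v j))
      (fun j r => QQ X g u f v r j) ?_ hc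
    intro j hj r hr j' hj' r' hr' hne hne'
    rw [Finset.mem_Ico] at hj hj'
    rw [Finset.mem_range] at hr hr'
    refine h.QQ_const' j0 j1 j j' r r' hj1 (by omega) (by omega) (by omega) (by omega)
      hr hr' ?_ ?_ hrun
    · by_contra hc'
      exact hne (h.cD_zero j r (by omega) (by omega) hr hc')
    · by_contra hc'
      exact hne' (h.cD_zero j' r' (by omega) (by omega) hr' hc')

theorem step (h : DS G Fc Rl X g S n a f u v y m) :
    L G.ipos G.pos X g (u ++ f ++ v) = L G.ipos G.pos X g (u ++ v) :=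
  L_ins G X g u f v m h.hm h.HA h.HC h.HB h.HA2 h.HD h.HA1

end DS

end Pool.Agent.TH317.CC.H811

namespace Pool.Agent.TH317.CC

open Finset

theorem K_small {D V Λ R : Type*} [LinearOrder Λ] [CommRing R] [Inhabited D]
    (G : Rib D V Λ) (Fc : Set (List D)) (Rl : ℕ → List D → Prop)
    (hL : Lev G Fc Rl) (X : List D → R) (hX : Cls G Fc Rl X) (S : Set V)
    (hFS : ∀ (ζ : List D) (y : V), Walk G y y ζ → (∀ e ∈ ζ, G.tl e ∈ S) → ζ ∈ Fc)
    (hS : IntZero G S) (n : ℕ) (a : D) (u ζ v : List D) (y : V)
    (hζ : Walk G y y ζ) (hζS : ∀ e ∈ ζ, G.tl e ∈ S) (ha : G.tl a ∉ S)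
    (hR : Rl (8 * n + 8) ((a :: u) ++ ζ ++ v)) :
    K G.ipos G.pos X n ((a :: u) ++ ζ ++ v) = K G.ipos G.pos X n ((a :: u) ++ v) := by
  induction n generalizing a u ζ v y with
  | zero =>
    have h1 := H811.lev_mono hL 1 _ (by omega) _ hR
    exact hX.del _ _ (Del.face (a :: u) ζ v (hFS ζ y hζ hζS)) (hL.mono _ _ h1)
      (hL.del _ _ _ h1 (Del.face (a :: u) ζ v (hFS ζ y hζ hζS)))
  | succ n ih =>
    rcases Nat.eq_zero_or_pos ζ.length with h0 | h0
    · have : ζ = [] := List.eq_nil_of_length_eq_zero h0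
      subst this
      simp
    · -- the closed walk
      obtain ⟨x, hw⟩ := hL.cw _ _ hR
      obtain ⟨p1, hw1, hwv⟩ := (H938.walk_append G _ _ _ _).mp hw
      obtain ⟨p2, hwu, hwf⟩ := (H938.walk_append G _ _ _ _).mp hw1
      have ex : x = G.tl a := hwu.1.symm
      have ef : p2 = y := by
        have e1 := H811.walk_start G _ _ _ hwf
        have e2 := H811.walk_start G _ _ _ hζ
        rw [H811.vx_lt _ _ _ _ h0] at e1 e2
        rw [e1, e2]
      have ep : p1 = y := by
        have hne : ζ ≠ [] := by intro e; rw [e] at h0; simp at h0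
        have e1 := H938.walk_last G _ _ _ hwf hne
        have e2 := H938.walk_last G _ _ _ hζ hne
        rw [← e1, ← e2]
      rw [ex, ef] at hwu
      rw [ex, ep] at hwv
      have yS : y ∈ S := by
        have e2 := H811.walk_start G _ _ _ hζ
        rw [H811.vx_lt _ _ _ _ h0, List.getD_eq_getElem _ _ h0] at e2
        rw [e2]
        exact hζS _ (List.getElem_mem h0)
      have hvne : v ≠ [] := by
        intro e
        subst e
        have : y = G.tl a := hwv
        exact ha (by rw [← this]; exact yS)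
      obtain ⟨m, hm⟩ : ∃ m, v.length = m + 1 :=
        ⟨v.length - 1, by have := List.length_pos_of_ne_nil hvne; omega⟩
      have hd : H811.DS G Fc Rl X (K G.ipos G.pos X n) S (8 * n + 8) a ζ (a :: u) v y m := by
        refine ⟨hL, hX, hFS, hS, ?_, by omega, hwu, hζ, hwv, hζS, h0, ⟨u, rfl⟩, ha, hm, ?_⟩
        · rintro C Z E p ⟨b, C', rfl, hb⟩ hZ hZS hRl
          exact ih b C' Z E p hZ hZS hb hRl
        · exact H811.lev_mono hL _ _ (by omega) _ hR
      exact hd.step

end Pool.Agent.TH317.CC
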