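import Pool.Agent.TH811.CC.Prep

set_option autoImplicit false
set_option linter.unusedVariables false
set_option linter.unusedSectionVars false

namespace Pool.Agent.TH317.CC.H811

open Finset Pool.Agent.TH317.CC Pool.Agent.TH317.CC.H938

variable {D V Λ R : Type*} [LinearOrder Λ] [CommRing R] [Inhabited D]

/-- products of the earlier passes -/
def PP (X g : List D → R) (u f v : List D) (r j : ℕ) : R :=
  X (u.drop j ++ f.take r) * g (u.take j ++ f.drop r ++ v)

/-- products of the later passes -/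
def QQ (X g : List D → R) (u f v : List D) (r t : ℕ) : R :=
  X (f.drop r ++ v.take t) * g (u ++ f.take r ++ v.drop t)

theorem mem_seg (l : List D) (j k : ℕ) (hk : k ≤ l.length) (e : D) (he : e ∈ (l.take k).drop j) :
    ∃ i, j ≤ i ∧ i < k ∧ e = l.getD i default := by
  obtain ⟨i, hi, rfl⟩ := List.mem_iff_getElem.mp he
  have h1 : i + j < k := by
    simp only [List.length_drop, List.length_take] at hi
    omega
  refine ⟨j + i, by omega, by omega, ?_⟩
  rw [List.getD_eq_getElem _ _ (by omega)]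
  simp

theorem lev_mono {G : Rib D V Λ} {Fc : Set (List D)} {Rl : ℕ → List D → Prop}
    (hL : Lev G Fc Rl) (n k : ℕ) (h : n ≤ k) (w : List D) (hw : Rl k w) : Rl n w := by
  induction k, h using Nat.le_induction with
  | base => exact hw
  | succ k hk ih => exact ih (hL.mono _ _ hw)

/-- the data of the induction step -/
structure DS (G : Rib D V Λ) (Fc : Set (List D)) (Rl : ℕ → List D → Prop) (X g : List D → R)
    (S : Set V) (n : ℕ) (a : D) (f u v : List D) (y : V) (m : ℕ) : Prop where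
  hL : Lev G Fc Rl
  hX : Cls G Fc Rl X
  hFS : ∀ (ζ : List D) (y : V), Walk G y y ζ → (∀ e ∈ ζ, G.tl e ∈ S) → ζ ∈ Fc
  hS : IntZero G S
  hg : ∀ (C Z E : List D) (p : V), (∃ b C', C = b :: C' ∧ G.tl b ∉ S) → Walk G p p Z →
    (∀ e ∈ Z, G.tl e ∈ S) → Rl n (C ++ Z ++ E) → g (C ++ Z ++ E) = g (C ++ E)
  hn : 1 ≤ n
  wu : Walk G (G.tl a) y u
  wf : Walk G y y f
  wv : Walk G y (G.tl a) v
  hfS : ∀ e ∈ f, G.tl e ∈ S
  hq : 0 < f.length
  ha : ∃ u', u = a :: u'
  haS : G.tl a ∉ S
  hm : v.length = m + 1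
  hR : Rl (n + 8) (u ++ f ++ v)

namespace DS

variable {G : Rib D V Λ} {Fc : Set (List D)} {Rl : ℕ → List D → Prop} {X g : List D → R}
    {S : Set V} {n : ℕ} {a : D} {f u v : List D} {y : V} {m : ℕ}

theorem cw (h : DS G Fc Rl X g S n a f u v y m) : CW G (u ++ f ++ v) := h.hL.cw _ _ h.hR

theorem cw' (h : DS G Fc Rl X g S n a f u v y m) : CW G (u ++ v) :=
  h.hL.cw _ _ (h.hL.del _ _ _ h.hR (Del.face u f v (h.hFS f y h.wf h.hfS)))

theorem cwf (h : DS G Fc Rl X g S n a f u v y m) : CW G f := ⟨y, h.wf⟩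

theorem wlen (h : DS G Fc Rl X g S n a f u v y m) :
    (u ++ f ++ v).length = u.length + f.length + (m + 1) := by
  simp only [List.length_append, h.hm]

theorem hvl (h : DS G Fc Rl X g S n a f u v y m) : 0 < v.length := by rw [h.hm]; omega

theorem hul (h : DS G Fc Rl X g S n a f u v y m) : 0 < u.length := by
  obtain ⟨u', e⟩ := h.ha
  rw [e]; simp

theorem f0 (h : DS G Fc Rl X g S n a f u v y m) : G.tl (f.getD 0 default) = y := by
  have := walk_start G _ _ _ h.wf
  rw [vx_lt _ _ _ _ h.hq] at this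
  exact this.symm

theorem v0 (h : DS G Fc Rl X g S n a f u v y m) : G.tl (v.getD 0 default) = y := by
  have := walk_start G _ _ _ h.wv
  rw [vx_lt _ _ _ _ h.hvl] at this
  exact this.symm

theorem vf_mem (h : DS G Fc Rl X g S n a f u v y m) (r : ℕ) : vx G f y r ∈ S := by
  have h0 : ∀ r < f.length, G.tl (f.getD r default) ∈ S := by
    intro r hr
    rw [List.getD_eq_getElem _ _ hr]
    exact h.hfS _ (List.getElem_mem hr)
  unfold vx
  split_ifs with h1
  · exact h0 r h1
  · rw [← h.f0]; exact h0 0 h.hq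

theorem yS (h : DS G Fc Rl X g S n a f u v y m) : y ∈ S := by
  have := h.vf_mem f.length
  rwa [vx_end] at this

/-- tails in `w` -/
theorem tl_u (h : DS G Fc Rl X g S n a f u v y m) (j : ℕ) (hj : j ≤ u.length) :
    G.tl ((u ++ f ++ v).getD j default) = vx G u y j := by
  rcases hj.lt_or_eq with h1 | h1
  · rw [getD_u u f v j h1, vx_lt _ _ _ _ h1]
  · subst h1
    have := getD_f u f v 0 h.hq
    rw [add_zero] at this
    rw [this, h.f0, vx_end]

theorem tl_f (h : DS G Fc Rl X g S n a f u v y m) (r : ℕ) (hr : r ≤ f.length) :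
    G.tl ((u ++ f ++ v).getD (u.length + r) default) = vx G f y r := by
  rcases hr.lt_or_eq with h1 | h1
  · rw [getD_f u f v r h1, vx_lt _ _ _ _ h1]
  · subst h1
    have := getD_v u f v 0
    rw [add_zero] at this
    rw [this, h.v0, vx_end]

theorem tl_v (h : DS G Fc Rl X g S n a f u v y m) (t : ℕ) (ht : t ≤ m) :
    G.tl ((u ++ f ++ v).getD (u.length + f.length + t) default) = vx G v (G.tl a) t := by
  rw [getD_v u f v t, vx_lt _ _ _ _ (by rw [h.hm]; omega)]

theorem vu0 (h : DS G Fc Rl X g S n a f u v y m) : vx G u y 0 = G.tl a := by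
  rw [← walk_start G _ _ _ h.wu]

theorem lleaf (h : DS G Fc Rl X g S n a f u v y m) (j k : ℕ) (hjk : j < k)
    (hk : k < u.length + f.length + (m + 1))
    (ht : G.tl ((u ++ f ++ v).getD j default) = G.tl ((u ++ f ++ v).getD k default)) :
    Rl (n + 7) (leaf (u ++ f ++ v) j k) :=
  h.hL.cutl _ _ _ _ h.hR hjk (by rw [h.wlen]; exact hk) ht

theorem lrest (h : DS G Fc Rl X g S n a f u v y m) (j k : ℕ) (hjk : j < k)
    (hk : k < u.length + f.length + (m + 1))
    (ht : G.tl ((u ++ f ++ v).getD j default) = G.tl ((u ++ f ++ v).getD k default)) :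
    Rl (n + 7) (rest (u ++ f ++ v) j k) :=
  h.hL.cutr _ _ _ _ h.hR hjk (by rw [h.wlen]; exact hk) ht

theorem Xinv (h : DS G Fc Rl X g S n a f u v y m) (C Z E : List D) (p : V)
    (hZ : Walk G p p Z) (hZS : ∀ e ∈ Z, G.tl e ∈ S) (hR : Rl 1 (C ++ Z ++ E)) :
    X (C ++ Z ++ E) = X (C ++ E) :=
  h.hX.del _ _ (Del.face C Z E (h.hFS Z p hZ hZS)) (h.hL.mono _ _ hR)
    (h.hL.del _ _ _ hR (Del.face C Z E (h.hFS Z p hZ hZS)))

theorem Xzero (h : DS G Fc Rl X g S n a f u v y m) (Z : List D) (p : V)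
    (hZ : Walk G p p Z) (hZS : ∀ e ∈ Z, G.tl e ∈ S) (hR : Rl 1 Z) : X Z = 0 := by
  have := h.Xinv [] Z [] p hZ hZS (by simpa using hR)
  simp only [List.nil_append, List.append_nil] at this
  rw [this, h.hX.nil]

theorem T_zero (h : DS G Fc Rl X g S n a f u v y m) (j k : ℕ)
    (hj : j < u.length + f.length + (m + 1)) (hk : k < u.length + f.length + (m + 1))
    (ht : G.tl ((u ++ f ++ v).getD j default) ≠ G.tl ((u ++ f ++ v).getD k default)) :
    cf G.ipos G.pos (u ++ f ++ v) j k = 0 :=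
  cf_zero G _ h.cw j k (by rw [h.wlen]; exact hj) (by rw [h.wlen]; exact hk) ht

theorem take_ok (h : DS G Fc Rl X g S n a f u v y m) (j : ℕ) (hj : 1 ≤ j) (W : List D) :
    ∃ b C', u.take j ++ W = b :: C' ∧ G.tl b ∉ S := by
  obtain ⟨u', e⟩ := h.ha
  obtain ⟨j', rfl⟩ := Nat.exists_eq_succ_of_ne_zero (by omega : j ≠ 0)
  refine ⟨a, u'.take j' ++ W, ?_, h.haS⟩
  rw [e]; simp

theorem u_ok (h : DS G Fc Rl X g S n a f u v y m) (W : List D) :
    ∃ b C', u ++ W = b :: C' ∧ G.tl b ∉ S := by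
  obtain ⟨u', e⟩ := h.ha
  exact ⟨a, u' ++ W, by rw [e]; simp, h.haS⟩

theorem HA (h : DS G Fc Rl X g S n a f u v y m) (k : ℕ) (hk : k < u.length) (j : ℕ)
    (hj : j < k) : T G X g (u ++ f ++ v) j k = T G X g (u ++ v) j k := by
  unfold T
  rw [← cf_uu G u f v h.hvl j k (by omega) hk]
  by_cases ht : G.tl ((u ++ f ++ v).getD j default) = G.tl ((u ++ f ++ v).getD k default)
  · have hr := h.lrest j k hj (by omega) ht
    rw [leaf_uu u f v j k hk.le, leaf_uu' u v j k hk.le, rest_uu u f v j k hj.le hk.le,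
      rest_uu' u v j k hj.le hk.le]
    rw [rest_uu u f v j k hj.le hk.le] at hr
    rw [h.hg _ _ _ y ?_ h.wf h.hfS (lev_mono h.hL _ _ (by omega) _ hr)]
    rcases Nat.eq_zero_or_pos j with h0 | h0
    · subst h0
      refine ⟨u.getD k default, u.drop (k + 1), ?_, ?_⟩
      · rw [List.take_zero, List.nil_append, List.drop_eq_getElem_cons hk,
          List.getD_eq_getElem _ _ hk]
      · rw [h.tl_u 0 (by omega), h.tl_u k hk.le, h.vu0, vx_lt _ _ _ _ hk] at ht
        rw [← ht]; exact h.haS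
    · exact h.take_ok j h0 _
  · rw [h.T_zero j k (by omega) (by omega) ht]; simp

theorem HA1 (h : DS G Fc Rl X g S n a f u v y m) (t : ℕ) (htm : t < m) (s : ℕ) (hs : s < t) :
    T G X g (u ++ f ++ v) (u.length + f.length + (s + 1)) (u.length + f.length + (t + 1)) =
        T G X g (u ++ v) (u.length + (s + 1)) (u.length + (t + 1)) := by
  unfold T
  rw [← cf_vv G u f v s t]
  by_cases ht : G.tl ((u ++ f ++ v).getD (u.length + f.length + (s + 1)) default) =
      G.tl ((u ++ f ++ v).getD (u.length + f.length + (t + 1)) default)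
  · have hr := h.lrest _ _ (by omega) (by omega) ht
    rw [leaf_vv, leaf_vv', rest_vv, rest_vv']
    rw [rest_vv] at hr
    rw [h.hg _ _ _ y ?_ h.wf h.hfS (lev_mono h.hL _ _ (by omega) _ hr)]
    simpa using h.u_ok []
  · rw [h.T_zero _ _ (by omega) (by omega) ht]; simp

theorem HA2 (h : DS G Fc Rl X g S n a f u v y m) (t : ℕ) (htm : t < m) (j : ℕ)
    (hj : j < u.length) :
    T G X g (u ++ f ++ v) j (u.length + f.length + (t + 1)) =
        T G X g (u ++ v) j (u.length + (t + 1)) := by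
  unfold T
  rw [← cf_uv G u f v h.hvl j t hj]
  by_cases ht : G.tl ((u ++ f ++ v).getD j default) =
      G.tl ((u ++ f ++ v).getD (u.length + f.length + (t + 1)) default)
  · have hr := h.lleaf _ _ (by omega) (by omega) ht
    rw [leaf_uv _ _ _ _ _ hj.le, leaf_uv' _ _ _ _ hj.le, rest_uv _ _ _ _ _ hj.le,
      rest_uv' _ _ _ _ hj.le]
    rw [leaf_uv _ _ _ _ _ hj.le] at hr
    rw [h.Xinv _ _ _ y h.wf h.hfS (lev_mono h.hL _ _ (by omega) _ hr)]
  · rw [h.T_zero _ _ (by omega) (by omega) ht]; simp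

theorem seg_f (h : DS G Fc Rl X g S n a f u v y m) (r' r : ℕ) :
    ∀ e ∈ (f.take r).drop r', G.tl e ∈ S :=
  fun e he => h.hfS e (List.mem_of_mem_take (List.mem_of_mem_drop he))

theorem take_f (h : DS G Fc Rl X g S n a f u v y m) (r : ℕ) :
    ∀ e ∈ f.take r, G.tl e ∈ S := fun e he => h.hfS e (List.mem_of_mem_take he)

theorem drop_f (h : DS G Fc Rl X g S n a f u v y m) (r : ℕ) :
    ∀ e ∈ f.drop r, G.tl e ∈ S := fun e he => h.hfS e (List.mem_of_mem_drop he)

theorem HC (h : DS G Fc Rl X g S n a f u v y m) (r : ℕ) (hr : r ≤ f.length) (r' : ℕ)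
    (hr' : r' < r) : T G X g (u ++ f ++ v) (u.length + r') (u.length + r) = 0 := by
  unfold T
  by_cases ht : G.tl ((u ++ f ++ v).getD (u.length + r') default) =
      G.tl ((u ++ f ++ v).getD (u.length + r) default)
  · have hl := h.lleaf _ _ (by omega) (by omega) ht
    rw [h.tl_f r' (by omega), h.tl_f r hr] at ht
    rw [leaf_ff _ _ _ _ _ hr] at hl ⊢
    have hw := (walk_seg G f y y h.wf r' r hr'.le hr).2.1
    rw [h.Xzero _ _ (by rw [ht] at hw; exact hw) (h.seg_f r' r) (lev_mono h.hL _ _ (by omega) _ hl)]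
    simp
  · rw [h.T_zero _ _ (by omega) (by omega) ht]; simp

/-! ### constancy -/

theorem Xxch (h : DS G Fc Rl X g S n a f u v y m) (C W₁ W₂ : List D) (p p' : V)
    (wC : Walk G p' p C) (h₁ : Walk G p p' W₁) (h₂ : Walk G p p' W₂)
    (s₁ : ∀ e ∈ W₁, G.tl e ∈ S) (s₂ : ∀ e ∈ W₂, G.tl e ∈ S) (sp : p' ∈ S)
    (hR : Rl (n + 2) (C ++ W₁)) : X (C ++ W₁) = X (C ++ W₂) := by
  have := xch h.hL h.hFS X (fun _ => True) (fun _ _ _ => trivial) 1
    (fun C Z E p _ hZ hZS hR => h.Xinv C Z E p hZ hZS hR) C W₁ W₂ [] p' p p' trivial wC rfl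
    h₁ h₂ s₁ s₂ sp (by rw [List.append_nil]; exact lev_mono h.hL _ _ (by omega) _ hR)
  simpa using this

theorem gxch (h : DS G Fc Rl X g S n a f u v y m) (C W₁ W₂ E : List D) (x p p' : V)
    (hC : ∃ b C', C = b :: C' ∧ G.tl b ∉ S) (wC : Walk G x p C) (wE : Walk G p' x E)
    (h₁ : Walk G p p' W₁) (h₂ : Walk G p p' W₂)
    (s₁ : ∀ e ∈ W₁, G.tl e ∈ S) (s₂ : ∀ e ∈ W₂, G.tl e ∈ S) (sp : p' ∈ S)
    (hR : Rl (n + 2) (C ++ W₁ ++ E)) : g (C ++ W₁ ++ E) = g (C ++ W₂ ++ E) := by
  refine xch h.hL h.hFS g (fun C => ∃ b C', C = b :: C' ∧ G.tl b ∉ S) ?_ n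
    (fun C Z E p hC hZ hZS hR => h.hg C Z E p hC hZ hZS hR) C W₁ W₂ E x p p' hC wC wE
    h₁ h₂ s₁ s₂ sp (h.hL.mono _ _ hR)
  rintro C W ⟨b, C', rfl, hb⟩
  exact ⟨b, C' ++ W, rfl, hb⟩

theorem PP_const (h : DS G Fc Rl X g S n a f u v y m) (j j' r r' : ℕ) (h1 : 1 ≤ j)
    (hjj : j ≤ j') (hj' : j' < u.length) (hr : r ≤ f.length) (hr' : r' ≤ f.length)
    (e : vx G u y j = vx G f y r) (e' : vx G u y j' = vx G f y r')
    (hrun : ∀ i, j ≤ i → i ≤ j' → vx G u y i ∈ S) :
    PP X g u f v r j = PP X g u f v r' j' := by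
  obtain ⟨wj, wB, wj'⟩ := walk_seg G u (G.tl a) y h.wu j j' hjj hj'.le
  have tB : ∀ e ∈ (u.take j').drop j, G.tl e ∈ S := by
    intro e he
    obtain ⟨i, hi1, hi2, rfl⟩ := mem_seg u j j' hj'.le e he
    have := hrun i hi1 hi2.le
    rwa [vx_lt _ _ _ _ (by omega)] at this
  obtain ⟨wr, -, wr2⟩ := walk_seg G f y y h.wf r r le_rfl hr
  obtain ⟨wr', -, wr2'⟩ := walk_seg G f y y h.wf r' r' le_rfl hr'
  have ht : G.tl ((u ++ f ++ v).getD j default) =
      G.tl ((u ++ f ++ v).getD (u.length + r) default) := by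
    rw [h.tl_u j (by omega), h.tl_f r hr, e]
  unfold PP
  congr 1
  · have hl := h.lleaf j (u.length + r) (by omega) (by omega) ht
    rw [leaf_uf u f v j r (by omega) hr] at hl
    rw [drop_take_eq u j j' hjj, List.append_assoc] at hl ⊢
    rw [rot_rot X h.hX.rot, List.append_assoc]
    have hl2 := rot_lev h.hL _ _ _ hl
    rw [List.append_assoc] at hl2
    refine h.Xxch (u.drop j') (f.take r ++ (u.take j').drop j) (f.take r') y (vx G u y j') wj'
      ((walk_append G _ _ _ _).mpr ⟨_, wr, by rw [← e]; exact wB⟩) (by rw [e']; exact wr') ?_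
      (h.take_f r') (hrun j' hjj le_rfl) (lev_mono h.hL _ _ (by omega) _ hl2)
    intro e he
    rcases List.mem_append.mp he with h2 | h2
    · exact h.take_f r e h2
    · exact tB e h2
  · have hl := h.lrest j (u.length + r) (by omega) (by omega) ht
    rw [rest_uf u f v j r (by omega) hr] at hl
    have e4 : u.take j' ++ f.drop r' ++ v =
        u.take j ++ ((u.take j').drop j ++ f.drop r') ++ v := by
      conv_lhs => rw [take_take_eq u j j' hjj]
      simp only [List.append_assoc]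
    rw [e4]
    refine h.gxch (u.take j) (f.drop r) ((u.take j').drop j ++ f.drop r') v (G.tl a)
      (vx G u y j) y (by simpa using h.take_ok j h1 []) wj h.wv (by rw [e]; exact wr2)
      ((walk_append G _ _ _ _).mpr ⟨_, wB, by rw [e']; exact wr2'⟩) (h.drop_f r) ?_ h.yS
      (lev_mono h.hL _ _ (by omega) _ hl)
    intro e he
    rcases List.mem_append.mp he with h2 | h2
    · exact tB e h2
    · exact h.drop_f r' e h2

theorem PP_last (h : DS G Fc Rl X g S n a f u v y m) (j r : ℕ) (hj : j < u.length)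
    (hr : r ≤ f.length) (e : vx G u y j = vx G f y r)
    (hrun : ∀ i, j ≤ i → i < u.length → vx G u y i ∈ S) : PP X g u f v r j = 0 := by
  obtain ⟨-, wB, -⟩ := walk_seg G u (G.tl a) y h.wu j u.length hj.le le_rfl
  rw [List.take_length, vx_end] at wB
  obtain ⟨wr, -, -⟩ := walk_seg G f y y h.wf r r le_rfl hr
  have ht : G.tl ((u ++ f ++ v).getD j default) =
      G.tl ((u ++ f ++ v).getD (u.length + r) default) := by
    rw [h.tl_u j hj.le, h.tl_f r hr, e]
  have hl := h.lleaf j (u.length + r) (by omega) (by omega) ht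
  rw [leaf_uf u f v j r hj.le hr] at hl
  unfold PP
  rw [h.Xzero (u.drop j ++ f.take r) (vx G u y j)
    ((walk_append G _ _ _ _).mpr ⟨_, wB, by rw [e]; exact wr⟩) ?_
    (lev_mono h.hL _ _ (by omega) _ hl), zero_mul]
  intro e he
  rcases List.mem_append.mp he with h2 | h2
  · have h3 : e ∈ (u.take u.length).drop j := by rw [List.take_length]; exact h2
    obtain ⟨i, hi1, hi2, rfl⟩ := mem_seg u j u.length le_rfl e h3
    have := hrun i hi1 hi2
    rwa [vx_lt _ _ _ _ hi2] at this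
  · exact h.take_f r e h2

theorem QQ_const (h : DS G Fc Rl X g S n a f u v y m) (t t' r r' : ℕ) (h1 : 1 ≤ t)
    (htt : t ≤ t') (ht' : t' ≤ m) (hr : r ≤ f.length) (hr' : r' ≤ f.length)
    (e : vx G v (G.tl a) t = vx G f y r) (e' : vx G v (G.tl a) t' = vx G f y r')
    (hrun : ∀ i, t ≤ i → i ≤ t' → vx G v (G.tl a) i ∈ S) :
    QQ X g u f v r t = QQ X g u f v r' t' := by
  have hvm := h.hm
  obtain ⟨wj, wB, wj'⟩ := walk_seg G v y (G.tl a) h.wv t t' htt (by omega)
  have tB : ∀ e ∈ (v.take t').drop t, G.tl e ∈ S := by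
    intro e he
    obtain ⟨i, hi1, hi2, rfl⟩ := mem_seg v t t' (by omega) e he
    have := hrun i hi1 hi2.le
    rwa [vx_lt _ _ _ _ (by omega)] at this
  obtain ⟨wr, -, wr2⟩ := walk_seg G f y y h.wf r r le_rfl hr
  obtain ⟨wr', -, wr2'⟩ := walk_seg G f y y h.wf r' r' le_rfl hr'
  have ht : G.tl ((u ++ f ++ v).getD (u.length + r) default) =
      G.tl ((u ++ f ++ v).getD (u.length + f.length + t) default) := by
    rw [h.tl_f r hr, h.tl_v t (by omega), e]
  unfold QQ
  congr 1
  · have hl := h.lleaf (u.length + r) (u.length + f.length + t) (by omega) (by omega) ht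
    rw [leaf_fv u f v r t hr] at hl
    have hl2 := rot_lev h.hL _ _ _ hl
    rw [rot_rot X h.hX.rot (f.drop r) (v.take t), rot_rot X h.hX.rot (f.drop r') (v.take t'),
      take_take_eq v t t' htt, List.append_assoc]
    refine h.Xxch (v.take t) (f.drop r) ((v.take t').drop t ++ f.drop r') (vx G v (G.tl a) t) y wj
      (by rw [e]; exact wr2) ((walk_append G _ _ _ _).mpr ⟨_, wB, by rw [e']; exact wr2'⟩)
      (h.drop_f r) ?_ h.yS (lev_mono h.hL _ _ (by omega) _ hl2)
    intro e he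
    rcases List.mem_append.mp he with h2 | h2
    · exact tB e h2
    · exact h.drop_f r' e h2
  · have hl := h.lrest (u.length + r) (u.length + f.length + t) (by omega) (by omega) ht
    rw [rest_fv u f v r t hr] at hl
    rw [drop_take_eq v t t' htt] at hl ⊢
    have e3 : u ++ f.take r ++ ((v.take t').drop t ++ v.drop t') =
        u ++ (f.take r ++ (v.take t').drop t) ++ v.drop t' := by simp
    rw [e3] at hl ⊢
    refine h.gxch u (f.take r ++ (v.take t').drop t) (f.take r') (v.drop t') (G.tl a)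
      y (vx G v (G.tl a) t') (by simpa using h.u_ok []) h.wu wj'
      ((walk_append G _ _ _ _).mpr ⟨_, wr, by rw [← e]; exact wB⟩) (by rw [e']; exact wr')
      ?_ (h.take_f r') (hrun t' htt le_rfl) (lev_mono h.hL _ _ (by omega) _ hl)
    intro e he
    rcases List.mem_append.mp he with h2 | h2
    · exact h.take_f r e h2
    · exact tB e h2

theorem QQ_first (h : DS G Fc Rl X g S n a f u v y m) (t r : ℕ) (h1 : 1 ≤ t) (ht : t ≤ m)
    (hr : r ≤ f.length) (e : vx G v (G.tl a) t = vx G f y r)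
    (hrun : ∀ i, i ≤ t → vx G v (G.tl a) i ∈ S) : QQ X g u f v r t = 0 := by
  have hvm := h.hm
  obtain ⟨wB, -, -⟩ := walk_seg G v y (G.tl a) h.wv t t le_rfl (by omega)
  obtain ⟨-, -, wr⟩ := walk_seg G f y y h.wf r r le_rfl hr
  have htl : G.tl ((u ++ f ++ v).getD (u.length + r) default) =
      G.tl ((u ++ f ++ v).getD (u.length + f.length + t) default) := by
    rw [h.tl_f r hr, h.tl_v t (by omega), e]
  have hl := h.lleaf (u.length + r) (u.length + f.length + t) (by omega) (by omega) htl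
  rw [leaf_fv u f v r t hr] at hl
  unfold QQ
  rw [h.Xzero (f.drop r ++ v.take t) (vx G f y r)
    ((walk_append G _ _ _ _).mpr ⟨_, wr, by rw [← e]; exact wB⟩) ?_
    (lev_mono h.hL _ _ (by omega) _ hl), zero_mul]
  intro e he
  rcases List.mem_append.mp he with h2 | h2
  · exact h.drop_f r e h2
  · have h3 : e ∈ (v.take t).drop 0 := by rw [List.drop_zero]; exact h2
    obtain ⟨i, hi1, hi2, rfl⟩ := mem_seg v 0 t (by omega) e h3
    have := hrun i hi2.le
    rwa [vx_lt _ _ _ _ (by omega)] at this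

end DS

end Pool.Agent.TH317.CC.H811
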