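import Pool.Agent.TH317.CC.Gen
import Pool.Agent.TH938.CC.Split

set_option autoImplicit false
set_option linter.unusedVariables false
set_option linter.unusedSectionVars false

namespace Pool.Agent.TH317.CC.H811

open Finset Pool.Agent.TH317.CC Pool.Agent.TH317.CC.H938

/-! ### sums over runs -/

section sums

variable {R : Type*} [CommRing R]

theorem runs (A : ℕ → Prop) (F : ℕ → R) (N : ℕ) (h1 : ∀ j < N, ¬ A j → F j = 0)
    (hfirst : ∀ j1 ≤ N, (∀ j < j1, A j) → ∑ j ∈ range j1, F j = 0)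
    (hmid : ∀ j0 j1, j0 < j1 → j1 ≤ N → ¬ A j0 → (j1 < N → ¬ A j1) →
      (∀ j, j0 < j → j < j1 → A j) → ∑ j ∈ Ico (j0 + 1) j1, F j = 0) :
    ∑ j ∈ range N, F j = 0 := by
  classical
  have key : ∀ M ≤ N, (M < N → ¬ A M) → ∑ j ∈ range M, F j = 0 := by
    intro M
    induction M using Nat.strong_induction_on with
    | _ M ih =>
      intro hM hA
      by_cases h : ∃ j < M, ¬ A j
      · obtain ⟨i, hi, hiA⟩ := h
        have hne : ((range M).filter (fun j => ¬ A j)).Nonempty :=
          ⟨i, by simp [hi, hiA]⟩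
        set j0 := ((range M).filter (fun j => ¬ A j)).max' hne with hj0
        have hm := Finset.max'_mem _ hne
        rw [← hj0] at hm
        obtain ⟨hm1, hm2⟩ := Finset.mem_filter.mp hm
        have hlt := Finset.mem_range.mp hm1
        have hrun : ∀ j, j0 < j → j < M → A j := by
          intro j hj hjM
          by_contra hc
          have : j ≤ j0 := Finset.le_max' _ j (by simp [hjM, hc])
          omega
        have e1 : ∑ j ∈ range M, F j = ∑ j ∈ range j0, F j + (F j0 + ∑ j ∈ Ico (j0 + 1) M, F j) := by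
          rw [← Finset.sum_eq_sum_Ico_succ_bot hlt, Finset.range_eq_Ico, Finset.range_eq_Ico,
            Finset.sum_Ico_consecutive _ (Nat.zero_le _) hlt.le]
        rw [e1, ih j0 hlt (by omega) (fun _ => hm2), h1 j0 (by omega) hm2,
          hmid j0 M hlt hM hm2 hA hrun]
        simp
      · push Not at h
        exact hfirst M hM h
  exact key N le_rfl (fun h => absurd h (lt_irrefl _))

theorem const_sum {ι : Type*} (s : Finset ι) (c : ι → ℤ) (P : ι → R)
    (h : ∀ x ∈ s, ∀ x' ∈ s, c x ≠ 0 → c x' ≠ 0 → P x = P x') (h0 : ∑ x ∈ s, c x = 0) :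
    ∑ x ∈ s, (c x : R) * P x = 0 := by
  by_cases hz : ∃ x ∈ s, c x ≠ 0
  · obtain ⟨x0, hx0, hc0⟩ := hz
    have : ∀ x ∈ s, (c x : R) * P x = (c x : R) * P x0 := by
      intro x hx
      by_cases hc : c x = 0
      · simp [hc]
      · rw [h x hx x0 hx0 hc hc0]
    rw [Finset.sum_congr rfl this, ← Finset.sum_mul, ← Int.cast_sum, h0]
    simp
  · push Not at hz
    exact Finset.sum_eq_zero fun x hx => by rw [hz x hx]; simp

theorem tele (M : ℕ → ℤ) (j0 j1 : ℕ) (h : j0 + 1 ≤ j1) :
    ∑ j ∈ Ico (j0 + 1) j1, (M j - M (j - 1)) = M (j1 - 1) - M j0 := by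
  induction j1, h using Nat.le_induction with
  | base => simp
  | succ k hk ih =>
    rw [Finset.sum_Ico_succ_top hk, ih]
    simp

end sums

section lk

variable {Λ : Type*} [LinearOrder Λ]

theorem lk_symm (a b : Λ × Λ) :
    lk a b + lk b a = (if a.2 = b.2 then 1 else 0) - (if a.1 = b.1 then 1 else 0) := by
  unfold lk
  have e1 : ((if a.2 ≤ b.2 then (1:ℤ) else 0) + (if b.2 ≤ a.2 then 1 else 0)) =
      1 + if a.2 = b.2 then 1 else 0 := by
    rcases lt_trichotomy a.2 b.2 with h | h | h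
    · rw [if_pos h.le, if_neg (not_le.mpr h), if_neg h.ne]
    · rw [if_pos h.le, if_pos h.ge, if_pos h]
    · rw [if_neg (not_le.mpr h), if_pos h.le, if_neg h.ne']; rfl
  have e2 : ((if a.2 ≤ b.1 then (1:ℤ) else 0) + (if b.1 < a.2 then 1 else 0)) = 1 := by
    rcases le_or_gt a.2 b.1 with h | h
    · rw [if_pos h, if_neg (not_lt.mpr h)]; rfl
    · rw [if_neg (not_le.mpr h), if_pos h]; rfl
  have e3 : ((if a.1 < b.2 then (1:ℤ) else 0) + (if b.2 ≤ a.1 then 1 else 0)) = 1 := by
    rcases lt_or_ge a.1 b.2 with h | h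
    · rw [if_pos h, if_neg (not_le.mpr h)]; rfl
    · rw [if_neg (not_lt.mpr h), if_pos h]; rfl
  have e4 : ((if a.1 < b.1 then (1:ℤ) else 0) + (if b.1 < a.1 then 1 else 0)) =
      1 - if a.1 = b.1 then 1 else 0 := by
    rcases lt_trichotomy a.1 b.1 with h | h | h
    · rw [if_pos h, if_neg h.not_gt, if_neg h.ne]; rfl
    · rw [if_neg (by rw [h]; exact lt_irrefl _), if_neg (by rw [h]; exact lt_irrefl _), if_pos h]; rfl
    · rw [if_neg h.not_gt, if_pos h, if_neg h.ne']; rfl
  linear_combination e1 - e2 - e3 + e4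

end lk

/-! ### walks -/

section walks

variable {D V Λ R : Type*} [LinearOrder Λ] [CommRing R] [Inhabited D]

theorem drop_take_eq (l : List D) (j k : ℕ) (h : j ≤ k) :
    l.drop j = (l.take k).drop j ++ l.drop k := by
  conv_lhs => rw [← List.take_append_drop k l]
  rw [List.drop_append]
  congr 1
  rcases le_or_gt k l.length with h' | h'
  · have : j - (l.take k).length = 0 := by
      rw [List.length_take, Nat.min_eq_left h']; omega
    rw [this, List.drop_zero]
  · rw [List.drop_of_length_le h'.le]; simp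

theorem take_take_eq (l : List D) (j k : ℕ) (h : j ≤ k) :
    l.take k = l.take j ++ (l.take k).drop j := by
  conv_lhs => rw [← List.take_append_drop j (l.take k)]
  rw [List.take_take, Nat.min_eq_left h]

/-- the `k`-th vertex of a walk with end point `x'` -/
def vx (G : Rib D V Λ) (w : List D) (x' : V) (k : ℕ) : V :=
  if k < w.length then G.tl (w.getD k default) else x'

theorem vx_lt (G : Rib D V Λ) (w : List D) (x' : V) (k : ℕ) (h : k < w.length) :
    vx G w x' k = G.tl (w.getD k default) := if_pos h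

theorem vx_end (G : Rib D V Λ) (w : List D) (x' : V) : vx G w x' w.length = x' :=
  if_neg (lt_irrefl _)

theorem walk_start (G : Rib D V Λ) (w : List D) (x x' : V) (h : Walk G x x' w) :
    x = vx G w x' 0 := by
  cases w with
  | nil => simpa [vx, Walk] using h
  | cons d l => rw [vx_lt _ _ _ _ (by simp)]; exact h.1.symm

theorem walk_seg (G : Rib D V Λ) (w : List D) (x x' : V) (h : Walk G x x' w) (j k : ℕ)
    (hjk : j ≤ k) (hk : k ≤ w.length) :
    Walk G x (vx G w x' j) (w.take j) ∧ Walk G (vx G w x' j) (vx G w x' k) ((w.take k).drop j) ∧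
      Walk G (vx G w x' k) x' (w.drop k) := by
  have aux : ∀ k ≤ w.length, ∀ m, Walk G m x' (w.drop k) → m = vx G w x' k := by
    intro k hk m hm
    have := walk_start G _ _ _ hm
    rw [this]
    unfold vx
    simp only [List.length_drop]
    rcases hk.lt_or_eq with h1 | h1
    · rw [if_pos (by omega), if_pos h1, List.getD_eq_getElem _ _ (by rw [List.length_drop]; omega),
        List.getD_eq_getElem _ _ h1]
      simp
    · rw [if_neg (by omega), if_neg (by omega)]
  have h1 : Walk G x x' (w.take j ++ ((w.take k).drop j ++ w.drop k)) := by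
    rw [← drop_take_eq w j k hjk, List.take_append_drop]; exact h
  rw [walk_append] at h1
  obtain ⟨m1, h2, h3⟩ := h1
  have h3' := h3
  rw [walk_append] at h3
  obtain ⟨m2, h4, h5⟩ := h3
  have e2 := aux k hk m2 h5
  have e1 := aux j (by omega) m1 (by rw [drop_take_eq w j k hjk]; exact h3')
  subst e1 e2
  exact ⟨h2, h4, h5⟩

theorem walk_hd_mem (G : Rib D V Λ) (S : Set V) : ∀ (w : List D) (x x' : V), Walk G x x' w →
    (∀ e ∈ w, G.tl e ∈ S) → x' ∈ S → ∀ e ∈ w, G.hd e ∈ S
  | [], x, x', h, h1, h2 => by simp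
  | [d], x, x', h, h1, h2 => by
      intro e he
      obtain ⟨_, h3⟩ := h
      have h3 : G.hd d = x' := h3
      simp only [List.mem_singleton] at he
      rw [he, h3]; exact h2
  | d :: d' :: l, x, x', h, h1, h2 => by
      intro e he
      obtain ⟨_, h3⟩ := h
      rcases List.mem_cons.mp he with h4 | h4
      · rw [h4, ← h3.1]; exact h1 d' (by simp)
      · exact walk_hd_mem G S (d' :: l) _ _ h3 (fun e he => h1 e (List.mem_cons_of_mem _ he)) h2 e h4

theorem walk_rev (G : Rib D V Λ) : ∀ (w : List D) (x x' : V), Walk G x x' w →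
    Walk G x' x (G.rev w)
  | [], x, x', h => by
      have h : x = x' := h
      subst h; exact rfl
  | d :: l, x, x', h => by
      obtain ⟨h1, h2⟩ := h
      have h3 := walk_rev G l _ _ h2
      have e : G.rev (d :: l) = G.rev l ++ [G.inv d] := by simp [Rib.rev]
      rw [e, walk_append]
      refine ⟨_, h3, rfl, ?_⟩
      change G.tl (G.inv (G.inv d)) = x
      rw [G.inv_inv]; exact h1

theorem rev_mem (G : Rib D V Λ) (S : Set V) (w : List D) (x x' : V) (h : Walk G x x' w)
    (h1 : ∀ e ∈ w, G.tl e ∈ S) (h2 : x' ∈ S) : ∀ e ∈ G.rev w, G.tl e ∈ S := by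
  intro e he
  simp only [Rib.rev, List.mem_reverse, List.mem_map] at he
  obtain ⟨d, hd, rfl⟩ := he
  exact walk_hd_mem G S w x x' h h1 h2 d hd

theorem rot_rot (X : List D → R) (h : ∀ a l, X (a :: l) = X (l ++ [a])) (A B : List D) :
    X (A ++ B) = X (B ++ A) := by
  induction A generalizing B with
  | nil => simp
  | cons a A ih =>
    rw [List.cons_append, h, List.append_assoc, ih]
    simp

theorem rot_lev {G : Rib D V Λ} {Fc : Set (List D)} {Rl : ℕ → List D → Prop}
    (hL : Lev G Fc Rl) (n : ℕ) (A B : List D) (h : Rl n (A ++ B)) : Rl n (B ++ A) := by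
  induction A generalizing B with
  | nil => simpa using h
  | cons a A ih =>
    rw [List.cons_append] at h
    have := hL.rot _ _ _ h
    rw [List.append_assoc] at this
    simpa using ih _ this

end walks

/-! ### exchange of walks inside `S` -/

section exch

variable {D V Λ R : Type*} [LinearOrder Λ] [CommRing R] [Inhabited D]

theorem xch {G : Rib D V Λ} {Fc : Set (List D)} {Rl : ℕ → List D → Prop} (hL : Lev G Fc Rl)
    {S : Set V} (hFS : ∀ (ζ : List D) (y : V), Walk G y y ζ → (∀ e ∈ ζ, G.tl e ∈ S) → ζ ∈ Fc)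
    (f : List D → R) (P : List D → Prop) (hP : ∀ C W, P C → P (C ++ W)) (k : ℕ)
    (hinv : ∀ (C Z E : List D) (p : V), P C → Walk G p p Z → (∀ e ∈ Z, G.tl e ∈ S) →
      Rl k (C ++ Z ++ E) → f (C ++ Z ++ E) = f (C ++ E))
    (C W₁ W₂ E : List D) (x p p' : V) (hC : P C) (wC : Walk G x p C) (wE : Walk G p' x E)
    (h₁ : Walk G p p' W₁) (h₂ : Walk G p p' W₂) (s₁ : ∀ e ∈ W₁, G.tl e ∈ S)
    (s₂ : ∀ e ∈ W₂, G.tl e ∈ S) (sp : p' ∈ S) (hR : Rl (k + 1) (C ++ W₁ ++ E)) :
    f (C ++ W₁ ++ E) = f (C ++ W₂ ++ E) := by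
  have r2 := walk_rev G _ _ _ h₂
  have m2 := rev_mem G S _ _ _ h₂ s₂ sp
  have z1 : Walk G p p (W₂ ++ G.rev W₂) := (walk_append G _ _ _ _).mpr ⟨_, h₂, r2⟩
  have z2 : Walk G p' p' (G.rev W₂ ++ W₁) := (walk_append G _ _ _ _).mpr ⟨_, r2, h₁⟩
  have n1 : ∀ e ∈ W₂ ++ G.rev W₂, G.tl e ∈ S := by
    intro e he
    rcases List.mem_append.mp he with h | h
    · exact s₂ e h
    · exact m2 e h
  have n2 : ∀ e ∈ G.rev W₂ ++ W₁, G.tl e ∈ S := by
    intro e he
    rcases List.mem_append.mp he with h | h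
    · exact m2 e h
    · exact s₁ e h
  have hR' : Rl (k + 1) (C ++ (W₁ ++ E)) := by rw [← List.append_assoc]; exact hR
  have hcw : CW G (C ++ (W₂ ++ G.rev W₂) ++ (W₁ ++ E)) :=
    ⟨x, (walk_append G _ _ _ _).mpr ⟨p, (walk_append G _ _ _ _).mpr ⟨p, wC, z1⟩,
      (walk_append G _ _ _ _).mpr ⟨p', h₁, wE⟩⟩⟩
  have hbig : Rl k (C ++ (W₂ ++ G.rev W₂) ++ (W₁ ++ E)) :=
    hL.ins k _ _ hR' (Del.face C _ _ (hFS _ p z1 n1)) hcw
  have e1 := hinv C _ _ p hC z1 n1 hbig
  have hb : C ++ (W₂ ++ G.rev W₂) ++ (W₁ ++ E) = (C ++ W₂) ++ (G.rev W₂ ++ W₁) ++ E := by simp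
  rw [hb] at hbig e1
  have e2 := hinv (C ++ W₂) _ _ p' (hP _ _ hC) z2 n2 hbig
  rw [List.append_assoc C W₁ E, ← e1, e2]

end exch

end Pool.Agent.TH317.CC.H811
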